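import Mathlib

set_option autoImplicit false

open MvPolynomial

namespace Pool.Agent.PBoch

abbrev Pol (n : ℕ) := MvPolynomial (Fin n) ℝ

/-- Laplacian. -/
noncomputable def Lap {n : ℕ} (f : Pol n) : Pol n := ∑ i, pderiv i (pderiv i f)

/-- Scalar product of the gradients. -/
noncomputable def Gr {n : ℕ} (f g : Pol n) : Pol n := ∑ i, pderiv i f * pderiv i g

/-- `|x|^2`. -/
noncomputable def Q (n : ℕ) : Pol n := ∑ i, X i ^ 2

/-- Squared norm of the Hessian. -/
noncomputable def Hs {n : ℕ} (f : Pol n) : Pol n := ∑ i, ∑ j, (pderiv i (pderiv j f)) ^ 2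

/-- Euler field. -/
noncomputable def Ed {n : ℕ} (f : Pol n) : Pol n := ∑ i, X i * pderiv i f

/-- Rotation field. -/
noncomputable def Rot {n : ℕ} (i j : Fin n) (f : Pol n) : Pol n :=
  X i * pderiv j f - X j * pderiv i f

/-- A Gaussian functional: linear, Stein's identity, nonnegative on nonnegative polynomials,
definite on squares. -/
structure Gau (n : ℕ) where
  E : Pol n →ₗ[ℝ] ℝ
  stein : ∀ (i : Fin n) (f : Pol n), E (X i * f) = E (pderiv i f)
  pos : ∀ f : Pol n, (∀ x : Fin n → ℝ, 0 ≤ eval x f) → 0 ≤ E f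
  definite : ∀ f : Pol n, E (f ^ 2) = 0 → f = 0

/-- The `p`-Laplace operator, `P = p - 2`, multiplied out. -/
noncomputable def PL {n : ℕ} (P : ℝ) (u : Pol n) : Pol n :=
  Gr u u * Lap u + C P * ∑ i, ∑ j, pderiv i u * pderiv j u * pderiv i (pderiv j u)

end Pool.Agent.PBoch
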