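import Mathlib
import Pool.Agent.PBoch.Defs

set_option autoImplicit false

open MvPolynomial

namespace Pool.Agent.PBoch

/-- The Gaussian functional exists (integral against the standard Gaussian measure). -/
def St_Gau : Prop := ∀ n : ℕ, Nonempty (Gau n)

/-- (1) `E[|x|^2 f] = n E f + E[x.grad f]`. -/
def St_Q : Prop := ∀ (n : ℕ) (G : Gau n) (f : Pol n), G.E (Q n * f) = n * G.E f + G.E (Ed f)

/-- (2),(3): the second moments. -/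
def St_Mom : Prop := ∀ (n : ℕ) (G : Gau n) (m : ℕ) (u : Pol n), u.IsHomogeneous m →
  G.E (u * Lap u) = m * G.E (u ^ 2) - G.E (Gr u u) ∧
  G.E (Lap u ^ 2) = G.E (Hs u) - (2 * m - 1) * G.E (Gr u u) + m ^ 2 * G.E (u ^ 2) ∧
  m * G.E (u * Lap u) = G.E (Lap u ^ 2) + ∑ i, G.E (pderiv i u * Lap (pderiv i u))

/-- (H) -/
def St_H : Prop := ∀ (n : ℕ) (G : Gau n) (m : ℕ) (u : Pol n), u.IsHomogeneous m →
  0 ≤ G.E (u * Lap u)

/-- (R) -/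
def St_R : Prop := ∀ (n : ℕ) (G : Gau n) (m : ℕ) (u : Pol n), u.IsHomogeneous m → 2 ≤ m →
  (n + 2 * m - 4 : ℝ) * G.E (Lap u ^ 2) ≤ m * (m + n - 2 : ℝ) * G.E (u * Lap u)

/-- Pointwise inequality, real variables: `S` = squared norm of the symmetric matrix `H`,
`v` = gradient, `U` = value of `u`, `W` = value of `w`; Euler relations `H x = (m-1) v`,
`x.v = m U`, and `v^T H v = W |v|^2`. -/
def St_Pt : Prop := ∀ (n : ℕ) (m : ℝ) (η : ℝ) (x v : Fin n → ℝ) (H : Fin n → Fin n → ℝ) (U W : ℝ),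
  2 ≤ m → 0 ≤ η →
  (∀ i j, H i j = H j i) →
  (∀ i, ∑ j, H i j * x j = (m - 1) * v i) →
  (∑ i, x i * v i = m * U) →
  (∑ i, ∑ j, v i * v j * H i j = W * ∑ i, v i ^ 2) →
  0 ≤ (∑ i, x i ^ 2) ^ 2 * (∑ i, ∑ j, H i j ^ 2) + (4 + 4 * η) * (m * (m - 1)) * U * W * (∑ i, x i ^ 2)
    - (5 + 4 * η) * (m * (m - 1)) ^ 2 * U ^ 2
    - (2 - η ^ 2) * (m - 1) ^ 2 * ((∑ i, x i ^ 2) * (∑ i, v i ^ 2) - m ^ 2 * U ^ 2)

/-- Main theorem. -/
def St_Main : Prop := ∀ (n m : ℕ) (P : ℝ) (u : Pol n), 2 ≤ n → 2 ≤ m → 0 < P →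
  ((n : ℝ) - 2) * (m + n - 2) * (2 * m + n - 2) < m * (m - 1) * (7 * m + 3 * n - 6) →
  u.IsHomogeneous m → PL P u = 0 → u = 0

end Pool.Agent.PBoch
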