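import Mathlib
import Pool.Agent.PBoch.Stmts

set_option autoImplicit false

open MvPolynomial

namespace Pool.Agent.PBoch

/-
PLAN. mu = MeasureTheory.Measure.pi (fun _ : Fin n => ProbabilityTheory.gaussianReal 0 1).
E f = integral of eval x f against mu. Everything polynomial is integrable: eval x f is a finite sum
of coefficient * prod_i x_i^(d i) (MvPolynomial.eval_eq'), and a product of integrable functions of
one variable is integrable for Measure.pi (MeasureTheory.Integrable.fintype_prod).
stein: on monomials, from the one variable recursion (integration by parts).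
pos: integral_nonneg. definite: the measure is positive on open sets.
-/

open MeasureTheory ProbabilityTheory

private theorem gauEx_int (k : ℕ) : Integrable (fun x : ℝ => x ^ k) (gaussianReal 0 1) :=
  integrable_pow_of_integrable_exp_mul (X := fun x : ℝ => x) (t := 1) one_ne_zero
    (integrable_exp_mul_gaussianReal 1) (integrable_exp_mul_gaussianReal (-1)) k

private theorem gauEx_pdf (x : ℝ) : gaussianPDFReal 0 1 x =
    (Real.sqrt (2 * Real.pi))⁻¹ * Real.exp (-(1 / 2) * x ^ 2) := by
  rw [gaussianPDFReal]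
  have h : -(x - 0) ^ 2 / (2 * ((1 : NNReal) : ℝ)) = -(1 / 2) * x ^ 2 := by
    push_cast
    ring
  rw [h]
  simp

private theorem gauEx_vol (k : ℕ) : Integrable (fun x : ℝ => x ^ k * gaussianPDFReal 0 1 x) := by
  have h := integrable_rpow_mul_exp_neg_mul_sq (b := 1 / 2) (by norm_num) (s := (k : ℝ)) (by
    have := Nat.cast_nonneg (α := ℝ) k
    linarith)
  have h2 := h.const_mul (Real.sqrt (2 * Real.pi))⁻¹
  refine h2.congr (Filter.Eventually.of_forall fun x => ?_)
  simp only [gauEx_pdf, Real.rpow_natCast]
  ring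

private theorem gauEx_deriv (x : ℝ) : HasDerivAt (fun x => -gaussianPDFReal 0 1 x)
    (x * gaussianPDFReal 0 1 x) x := by
  have h1 : (fun x => -gaussianPDFReal 0 1 x) =
      fun x => -((Real.sqrt (2 * Real.pi))⁻¹ * Real.exp (-(1 / 2) * x ^ 2)) := by
    funext x
    rw [gauEx_pdf]
  rw [h1, gauEx_pdf]
  have h2 : HasDerivAt (fun x : ℝ => -(1 / 2) * x ^ 2) (-x) x := by
    have h := (hasDerivAt_pow 2 x).const_mul (-(1 / 2) : ℝ)
    refine h.congr_deriv ?_
    push_cast
    ring
  have h3 := ((h2.exp).const_mul (Real.sqrt (2 * Real.pi))⁻¹).neg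
  exact h3.congr_deriv (by ring)

private theorem gauEx_rec (k : ℕ) : ∫ x, x ^ (k + 1) ∂(gaussianReal 0 1) =
    k * ∫ x, x ^ (k - 1) ∂(gaussianReal 0 1) := by
  rw [integral_gaussianReal_eq_integral_smul one_ne_zero,
    integral_gaussianReal_eq_integral_smul one_ne_zero, ← integral_const_mul]
  have h := integral_mul_deriv_eq_deriv_mul_of_integrable (u := fun x : ℝ => x ^ k)
    (u' := fun x => k * x ^ (k - 1)) (v := fun x => -gaussianPDFReal 0 1 x)
    (v' := fun x => x * gaussianPDFReal 0 1 x) (fun x _ => hasDerivAt_pow k x)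
    (fun x _ => gauEx_deriv x) (by
      refine (gauEx_vol (k + 1)).congr (Filter.Eventually.of_forall fun x => ?_)
      simp only [Pi.mul_apply]
      ring) (by
      refine ((gauEx_vol (k - 1)).const_mul (-(k : ℝ))).congr
        (Filter.Eventually.of_forall fun x => ?_)
      simp only [Pi.mul_apply]
      ring) (by
      refine ((gauEx_vol k).const_mul (-1 : ℝ)).congr (Filter.Eventually.of_forall fun x => ?_)
      simp only [Pi.mul_apply]
      ring)
  have h1 : ∀ x : ℝ, gaussianPDFReal 0 1 x • x ^ (k + 1) =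
      x ^ k * (x * gaussianPDFReal 0 1 x) := by
    intro x
    rw [smul_eq_mul]
    ring
  have h2 : ∀ x : ℝ, (k : ℝ) * (gaussianPDFReal 0 1 x • x ^ (k - 1)) =
      -(k * x ^ (k - 1) * -gaussianPDFReal 0 1 x) := by
    intro x
    rw [smul_eq_mul]
    ring
  simp only [h1, h2]
  rw [h, integral_neg]

private noncomputable def gauExM (n : ℕ) : Measure (Fin n → ℝ) :=
  Measure.pi (fun _ => gaussianReal 0 1)

private theorem gauEx_intf {n : ℕ} (f : Pol n) :
    Integrable (fun x => eval x f) (gauExM n) := by
  have h : (fun x : Fin n → ℝ => eval x f) =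
      fun x => ∑ d ∈ f.support, coeff d f * ∏ i, x i ^ d i := by
    funext x
    exact eval_eq' x f
  rw [h]
  unfold gauExM
  exact integrable_finsetSum _ fun d _ =>
    (Integrable.fintype_prod (f := fun (i : Fin n) (t : ℝ) => t ^ d i)
      fun i => gauEx_int (d i)).const_mul _

private noncomputable def gauExE (n : ℕ) : Pol n →ₗ[ℝ] ℝ where
  toFun f := ∫ x, eval x f ∂(gauExM n)
  map_add' f g := by
    simp only [map_add]
    exact integral_add (gauEx_intf f) (gauEx_intf g)
  map_smul' a f := by
    simp only [smul_eval, RingHom.id_apply, smul_eq_mul]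
    exact integral_const_mul a _

private theorem gauExE_mon {n : ℕ} (d : Fin n →₀ ℕ) (a : ℝ) :
    gauExE n (monomial d a) = a * ∏ i, ∫ x, x ^ d i ∂(gaussianReal 0 1) := by
  show ∫ x, eval x (monomial d a) ∂(gauExM n) = _
  have h : ∀ x : Fin n → ℝ, eval x (monomial d a) = a * ∏ i, x i ^ d i := by
    intro x
    rw [eval_monomial, Finsupp.prod_fintype _ _ (fun i => pow_zero _)]
  simp only [h]
  rw [integral_const_mul]
  unfold gauExM
  rw [integral_fintype_prod_eq_prod (f := fun (i : Fin n) (t : ℝ) => t ^ d i)]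

private theorem gauEx_stein {n : ℕ} (i : Fin n) (f : Pol n) :
    gauExE n (X i * f) = gauExE n (pderiv i f) := by
  induction f using MvPolynomial.induction_on' with
  | monomial d a =>
    have h1 : (X i : Pol n) * monomial d a = monomial (Finsupp.single i 1 + d) a := by
      rw [X, monomial_mul, one_mul]
    rw [h1, pderiv_monomial, gauExE_mon, gauExE_mon, mul_assoc]
    congr 1
    rw [← Finset.mul_prod_erase Finset.univ _ (Finset.mem_univ i),
      ← Finset.mul_prod_erase Finset.univ (fun j => ∫ x, x ^ ((d - Finsupp.single i 1 :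
        Fin n →₀ ℕ) j) ∂(gaussianReal 0 1)) (Finset.mem_univ i), ← mul_assoc]
    have h2 : (Finsupp.single i 1 + d : Fin n →₀ ℕ) i = d i + 1 := by
      simp [add_comm]
    have h3 : (d - Finsupp.single i 1 : Fin n →₀ ℕ) i = d i - 1 := by
      simp
    rw [h2, h3, gauEx_rec]
    congr 1
    refine Finset.prod_congr rfl fun j hj => ?_
    have h4 : j ≠ i := Finset.ne_of_mem_erase hj
    have h5 : (Finsupp.single i 1 + d : Fin n →₀ ℕ) j = d j := by
      simp [h4.symm]
    have h6 : (d - Finsupp.single i 1 : Fin n →₀ ℕ) j = d j := by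
      simp [h4.symm]
    rw [h5, h6]
  | add p q hp hq =>
    rw [mul_add, map_add, map_add, map_add, hp, hq]

private theorem gauEx_openPos : (gaussianReal 0 1).IsOpenPosMeasure :=
  (gaussianReal_absolutelyContinuous' 0 one_ne_zero).isOpenPosMeasure

theorem st_Gau : St_Gau := by
  intro n
  refine ⟨⟨gauExE n, gauEx_stein, fun f hf => integral_nonneg hf, fun f hf => ?_⟩⟩
  have h1 : ∫ x, eval x (f ^ 2) ∂(gauExM n) = 0 := hf
  rw [integral_eq_zero_iff_of_nonneg (fun x => by
    rw [map_pow]
    exact sq_nonneg _) (gauEx_intf (f ^ 2))] at h1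
  have h3 := gauEx_openPos
  have h2 : (gauExM n).IsOpenPosMeasure := by
    unfold gauExM
    infer_instance
  have h4 : Continuous fun x : Fin n → ℝ => eval x (f ^ 2) := MvPolynomial.continuous_eval _
  have h5 := (h4.ae_eq_iff_eq (gauExM n) continuous_const).1 h1
  refine MvPolynomial.funext fun x => ?_
  have h6 := congrFun h5 x
  simp only [map_pow] at h6
  rw [map_zero]
  exact pow_eq_zero_iff two_ne_zero |>.1 h6

end Pool.Agent.PBoch
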