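import Mathlib
import Pool.Agent.PBoch.Stmts

set_option autoImplicit false

open MvPolynomial

namespace Pool.Agent.PBoch

private lemma h_lap_zero {n : ℕ} (u : Pol n) (hu : u.IsHomogeneous 0) : Lap u = 0 := by
  have h0 : u.totalDegree = 0 := Nat.le_zero.mp hu.totalDegree_le
  obtain ⟨a, ha⟩ : ∃ a, u = C a := ⟨_, totalDegree_eq_zero_iff_eq_C.mp h0⟩
  rw [ha]
  simp [Lap]

/-- (H) from the third moment identity, by induction on the degree. -/
theorem st_H (hM : St_Mom) : St_H := by
  intro n G m
  induction m with
  | zero =>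
    intro u hu
    rw [h_lap_zero u hu]
    simp
  | succ m ih =>
    intro u hu
    obtain ⟨_, _, h3⟩ := hM n G (m + 1) u hu
    have hC : 0 ≤ G.E (Lap u ^ 2) := by
      apply G.pos
      intro x
      rw [map_pow]
      positivity
    have hs : 0 ≤ ∑ i, G.E (pderiv i u * Lap (pderiv i u)) := by
      apply Finset.sum_nonneg
      intro i _
      apply ih
      have := hu.pderiv (i := i)
      simpa using this
    have hm : (0 : ℝ) < ((m + 1 : ℕ) : ℝ) := by positivity
    have : 0 ≤ ((m + 1 : ℕ) : ℝ) * G.E (u * Lap u) := by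
      rw [h3]
      exact add_nonneg hC hs
    exact nonneg_of_mul_nonneg_right this hm

end Pool.Agent.PBoch
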