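import Mathlib
import Pool.Agent.PBoch.Stmts

set_option autoImplicit false

open MvPolynomial

namespace Pool.Agent.PBoch

private lemma mn_comm {n : ℕ} (i j : Fin n) (f : Pol n) :
    pderiv i (pderiv j f) = pderiv j (pderiv i f) := by
  classical
  induction f using MvPolynomial.induction_on with
  | C a => simp
  | add p q hp hq => simp only [map_add, hp, hq]
  | mul_X p k hp =>
    have hX : ∀ l : Fin n, pderiv l (X k : Pol n) = C (if l = k then 1 else 0) := by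
      intro l
      rw [pderiv_X]
      by_cases h : l = k
      · subst h; simp
      · simp [h]
    simp only [pderiv_mul, hX, map_add, hp, pderiv_C]
    ring

private lemma mn_Ed {n : ℕ} (f : Pol n) (k : ℕ) (hf : f.IsHomogeneous k) : Ed f = C (k : ℝ) * f := by
  have := hf.sum_X_mul_pderiv
  unfold Ed
  rw [this, nsmul_eq_mul]
  simp

private lemma mn_E_C {n : ℕ} (G : Gau n) (a : ℝ) (f : Pol n) : G.E (C a * f) = a * G.E f := by
  rw [C_mul', map_smul, smul_eq_mul]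

private lemma mn_Q (hQ : St_Q) {n : ℕ} (G : Gau n) (f : Pol n) (k : ℕ) (hf : f.IsHomogeneous k) :
    G.E (Q n * f) = ((n : ℝ) + k) * G.E f := by
  rw [hQ, mn_Ed f k hf, mn_E_C]
  ring

private lemma mn_hGr {n m : ℕ} (u : Pol n) (hu : u.IsHomogeneous m) :
    (Gr u u).IsHomogeneous ((m - 1) + (m - 1)) := by
  unfold Gr
  apply IsHomogeneous.sum
  intro i _
  exact hu.pderiv.mul hu.pderiv

private lemma mn_hHs {n m : ℕ} (u : Pol n) (hu : u.IsHomogeneous m) :
    (Hs u).IsHomogeneous ((m - 1 - 1) * 2) := by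
  unfold Hs
  apply IsHomogeneous.sum
  intro i _
  apply IsHomogeneous.sum
  intro j _
  exact (IsHomogeneous.pderiv (IsHomogeneous.pderiv hu)).pow 2

private lemma mn_hLap {n m : ℕ} (u : Pol n) (hu : u.IsHomogeneous m) :
    (Lap u).IsHomogeneous (m - 1 - 1) := by
  unfold Lap
  apply IsHomogeneous.sum
  intro i _
  exact IsHomogeneous.pderiv (IsHomogeneous.pderiv hu)

private lemma mn_hQ (n : ℕ) : (Q n).IsHomogeneous 2 := by
  unfold Q
  apply IsHomogeneous.sum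
  intro i _
  exact (isHomogeneous_X ℝ i).pow 2

/-- the polynomial of the pointwise inequality -/
private noncomputable def mF {n : ℕ} (m : ℕ) (P η : ℝ) (u : Pol n) : Pol n :=
  Q n * (Q n * Hs u) + C ((4 + 4 * η) * ((m : ℝ) * (m - 1)) * (-1 / P)) * (Q n * (u * Lap u))
    + C (-((5 + 4 * η) * ((m : ℝ) * (m - 1)) ^ 2)) * u ^ 2
    + C (-((2 - η ^ 2) * ((m : ℝ) - 1) ^ 2)) * (Q n * Gr u u)
    + C ((2 - η ^ 2) * ((m : ℝ) - 1) ^ 2 * (m : ℝ) ^ 2) * u ^ 2

private lemma mF_nonneg (hPt : St_Pt) {n m : ℕ} (P η : ℝ) (u : Pol n) (hm : 2 ≤ m) (hη : 0 ≤ η)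
    (hP : 0 < P) (hu : u.IsHomogeneous m) (hPL : PL P u = 0) (x : Fin n → ℝ) :
    0 ≤ eval x (mF m P η u) := by
  have hm' : (2 : ℝ) ≤ (m : ℝ) := by exact_mod_cast hm
  have hm1 : ((m - 1 : ℕ) : ℝ) = (m : ℝ) - 1 := by
    have : 1 ≤ m := by omega
    push_cast [Nat.cast_sub this]
    ring
  have hE1 : ∀ i, ∑ j, eval x (pderiv i (pderiv j u)) * x j = ((m : ℝ) - 1) * eval x (pderiv i u) := by
    intro i
    have h := mn_Ed (pderiv i u) (m - 1) hu.pderiv
    have h' := congrArg (eval x) h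
    simp only [Ed, map_sum, map_mul, eval_X, eval_C] at h'
    rw [← hm1, ← h']
    apply Finset.sum_congr rfl
    intro j _
    rw [mn_comm i j u]
    ring
  have hE2 : ∑ i, x i * eval x (pderiv i u) = (m : ℝ) * eval x u := by
    have h := mn_Ed u m hu
    have h' := congrArg (eval x) h
    simp only [Ed, map_sum, map_mul, eval_X, eval_C] at h'
    exact h'
  have hW : ∑ i, ∑ j, eval x (pderiv i u) * eval x (pderiv j u) * eval x (pderiv i (pderiv j u))
      = (-1 / P * eval x (Lap u)) * ∑ i, eval x (pderiv i u) ^ 2 := by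
    have h' := congrArg (eval x) hPL
    simp only [PL, map_add, map_mul, map_sum, eval_C, map_zero] at h'
    have hG : eval x (Gr u u) = ∑ i, eval x (pderiv i u) ^ 2 := by
      simp only [Gr, map_sum, map_mul]
      exact Finset.sum_congr rfl (fun i _ => by ring)
    rw [hG] at h'
    field_simp
    linarith
  have key := hPt n m η x (fun i => eval x (pderiv i u)) (fun i j => eval x (pderiv i (pderiv j u)))
    (eval x u) (-1 / P * eval x (Lap u)) hm' hη (fun i j => by rw [mn_comm i j u]) hE1 hE2 hW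
  have hQe : eval x (Q n) = ∑ i, x i ^ 2 := by simp [Q]
  have hHe : eval x (Hs u) = ∑ i, ∑ j, (eval x (pderiv i (pderiv j u))) ^ 2 := by simp [Hs]
  have hG : eval x (Gr u u) = ∑ i, eval x (pderiv i u) ^ 2 := by
    simp only [Gr, map_sum, map_mul]
    exact Finset.sum_congr rfl (fun i _ => by ring)
  unfold mF
  simp only [map_add, map_mul, eval_C, map_pow, hQe, hHe, hG]
  refine le_of_le_of_eq key ?_
  ring

theorem st_Main (hG : St_Gau) (hQ : St_Q) (hM : St_Mom) (hH : St_H) (hR : St_R) (hPt : St_Pt) :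
    St_Main := by
  intro n m P u hn hm hP hreg hu hPL
  obtain ⟨G⟩ := hG n
  have hm' : (2 : ℝ) ≤ (m : ℝ) := by exact_mod_cast hm
  have hn' : (2 : ℝ) ≤ (n : ℝ) := by exact_mod_cast hn
  have hm1 : ((m - 1 : ℕ) : ℝ) = (m : ℝ) - 1 := by
    have : 1 ≤ m := by omega
    push_cast [Nat.cast_sub this]
    ring
  have hm2 : ((m - 1 - 1 : ℕ) : ℝ) = (m : ℝ) - 2 := by
    have h1 : 1 ≤ m - 1 := by omega
    rw [Nat.cast_sub h1, hm1]
    push_cast
    ring
  set s : ℝ := (m : ℝ) + n - 2 with hs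
  have hs0 : 0 < s := by rw [hs]; linarith
  set η : ℝ := 2 * m / s with hηd
  have hη0 : 0 ≤ η := by rw [hηd]; positivity
  set a0 := G.E (u ^ 2) with ha0
  set a1 := G.E (Gr u u) with ha1
  set a2 := G.E (Hs u) with ha2
  set B := G.E (u * Lap u) with hB
  set Cc := G.E (Lap u ^ 2) with hCc
  obtain ⟨e1, e2, -⟩ := hM n G m u hu
  have hB0 := hH n G m u hu
  have hRR := hR n G m u hu hm
  -- expectation of the pointwise inequality
  have h0 : 0 ≤ G.E (mF m P η u) := G.pos _ (mF_nonneg hPt P η u hm hη0 hP hu hPL)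
  have q1 : G.E (Q n * Hs u) = ((n : ℝ) + 2 * m - 4) * a2 := by
    rw [mn_Q hQ G _ _ (mn_hHs u hu)]
    push_cast [hm2]
    ring
  have q2 : G.E (Q n * (Q n * Hs u)) = ((n : ℝ) + 2 * m - 2) * (((n : ℝ) + 2 * m - 4) * a2) := by
    rw [mn_Q hQ G _ _ ((mn_hQ n).mul (mn_hHs u hu)), q1]
    push_cast [hm2]
    ring
  have q3 : G.E (Q n * (u * Lap u)) = ((n : ℝ) + 2 * m - 2) * B := by
    rw [mn_Q hQ G _ _ (hu.mul (mn_hLap u hu))]
    push_cast [hm2]
    ring
  have q4 : G.E (Q n * Gr u u) = ((n : ℝ) + 2 * m - 2) * a1 := by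
    rw [mn_Q hQ G _ _ (mn_hGr u hu)]
    push_cast [hm1]
    ring
  unfold mF at h0
  simp only [map_add, mn_E_C, q2, q3, q4, ← ha0] at h0
  have hK : (0 : ℝ) ≤ (n : ℝ) + 2 * m - 2 := by linarith
  have hKR := mul_le_mul_of_nonneg_left hRR hK
  have ea1 : a1 = m * a0 - B := by linarith
  have ea2 : a2 = Cc + (2 * m - 1) * a1 - m ^ 2 * a0 := by linarith
  have e0 : 0 ≤ a0 := G.pos _ (fun x => by rw [map_pow]; positivity)
  have hZ : 0 ≤ ((m : ℝ) - 1) * (m + n - 3) - 1 + η ^ 2 * ((m : ℝ) - 1) ^ 2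
      + (4 + 4 * η) * ((m : ℝ) * (m - 1)) * (1 / P) := by
    have h1 : 0 ≤ (4 + 4 * η) * ((m : ℝ) * (m - 1)) * (1 / P) := by
      apply mul_nonneg
      · apply mul_nonneg
        · linarith
        · apply mul_nonneg <;> linarith
      · positivity
    have h2 : 0 ≤ ((m : ℝ) - 1) * (m + n - 3) - 1 := by nlinarith
    have h3 : 0 ≤ η ^ 2 * ((m : ℝ) - 1) ^ 2 := by positivity
    linarith
  have hY : (m : ℝ) * (n + 2 * m - 4) * (n + 2 * m - 2) - m ^ 2 * (m - 1) * (5 + 4 * η)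
      - (m - 1) * (m * s) * (2 - η ^ 2) < 0 := by
    have hηs : η * s = 2 * m := by rw [hηd]; field_simp
    have hn2 : (n : ℝ) = s - m + 2 := by rw [hs]; ring
    have hmul : ((m : ℝ) * (n + 2 * m - 4) * (n + 2 * m - 2) - m ^ 2 * (m - 1) * (5 + 4 * η)
      - (m - 1) * (m * s) * (2 - η ^ 2)) * s
        = m * (s ^ 3 - 4 * m ^ 2 * s + 3 * m * s - 4 * m ^ 3 + 4 * m ^ 2) := by
      rw [hn2]
      linear_combination (-4 * (m : ℝ) ^ 2 * (m - 1) + (m - 1) * m * (η * s + 2 * m)) * hηs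
    have hreg' : s ^ 3 - 4 * m ^ 2 * s + 3 * m * s - 4 * m ^ 3 + 4 * m ^ 2 < 0 := by
      rw [hn2] at hreg
      nlinarith [hreg]
    have hneg : ((m : ℝ) * (n + 2 * m - 4) * (n + 2 * m - 2) - m ^ 2 * (m - 1) * (5 + 4 * η)
      - (m - 1) * (m * s) * (2 - η ^ 2)) * s < 0 := by
      rw [hmul]
      exact mul_neg_of_pos_of_neg (by linarith) hreg'
    exact neg_of_mul_neg_left hneg hs0.le
  have hfin : 0 ≤ ((m : ℝ) - 1) * a0 * ((m : ℝ) * (n + 2 * m - 4) * (n + 2 * m - 2)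
      - m ^ 2 * (m - 1) * (5 + 4 * η) - (m - 1) * (m * s) * (2 - η ^ 2))
      - ((n : ℝ) + 2 * m - 2) * B * (((m : ℝ) - 1) * (m + n - 3) - 1 + η ^ 2 * ((m : ℝ) - 1) ^ 2
      + (4 + 4 * η) * ((m : ℝ) * (m - 1)) * (1 / P)) := by
    rw [ea2, ea1] at h0
    rw [hs]
    linear_combination h0 + hKR
  have hBZ : 0 ≤ ((n : ℝ) + 2 * m - 2) * B * (((m : ℝ) - 1) * (m + n - 3) - 1
      + η ^ 2 * ((m : ℝ) - 1) ^ 2 + (4 + 4 * η) * ((m : ℝ) * (m - 1)) * (1 / P)) :=
    mul_nonneg (mul_nonneg hK hB0) hZ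
  have hfin2 : a0 ≤ 0 := by
    by_contra hcon
    push Not at hcon
    have : ((m : ℝ) - 1) * a0 * ((m : ℝ) * (n + 2 * m - 4) * (n + 2 * m - 2)
      - m ^ 2 * (m - 1) * (5 + 4 * η) - (m - 1) * (m * s) * (2 - η ^ 2)) < 0 :=
      mul_neg_of_pos_of_neg (mul_pos (by linarith) hcon) hY
    linarith
  exact G.definite u (le_antisymm hfin2 e0)

end Pool.Agent.PBoch
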