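import Mathlib
import Pool.Agent.PBoch.Stmts

set_option autoImplicit false

open MvPolynomial

namespace Pool.Agent.PBoch

/-- `0 ≤ |H - B|²` for `B = α x xᵀ + β (x tᵀ + t xᵀ) + γ t tᵀ` with `x.t = 0`. -/
private theorem Pt_frob {n : ℕ} (x t : Fin n → ℝ) (H : Fin n → Fin n → ℝ) (α β γ : ℝ)
    (h0 : ∑ i, x i * t i = 0) :
    0 ≤ (∑ i, ∑ j, H i j ^ 2) - 2 * α * (∑ i, ∑ j, H i j * (x i * x j))
      - 2 * β * (∑ i, ∑ j, H i j * (x i * t j)) - 2 * β * (∑ i, ∑ j, H i j * (t i * x j))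
      - 2 * γ * (∑ i, ∑ j, H i j * (t i * t j))
      + α ^ 2 * (∑ i, x i ^ 2) ^ 2 + 2 * β ^ 2 * ((∑ i, x i ^ 2) * (∑ i, t i ^ 2))
      + γ ^ 2 * (∑ i, t i ^ 2) ^ 2 := by
  have key : (∑ i, ∑ j, (H i j - (α * (x i * x j) + β * (x i * t j + t i * x j)
      + γ * (t i * t j))) ^ 2) =
      (∑ i, ∑ j, H i j ^ 2) - 2 * α * (∑ i, ∑ j, H i j * (x i * x j))
      - 2 * β * (∑ i, ∑ j, H i j * (x i * t j)) - 2 * β * (∑ i, ∑ j, H i j * (t i * x j))
      - 2 * γ * (∑ i, ∑ j, H i j * (t i * t j))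
      + α ^ 2 * (∑ i, ∑ j, x i ^ 2 * x j ^ 2)
      + β ^ 2 * (∑ i, ∑ j, x i ^ 2 * t j ^ 2) + β ^ 2 * (∑ i, ∑ j, t i ^ 2 * x j ^ 2)
      + (2 * β ^ 2 + 2 * α * γ) * (∑ i, ∑ j, (x i * t i) * (x j * t j))
      + γ ^ 2 * (∑ i, ∑ j, t i ^ 2 * t j ^ 2)
      + 2 * α * β * (∑ i, ∑ j, x i ^ 2 * (x j * t j))
      + 2 * α * β * (∑ i, ∑ j, (x i * t i) * x j ^ 2)
      + 2 * β * γ * (∑ i, ∑ j, t i ^ 2 * (x j * t j))
      + 2 * β * γ * (∑ i, ∑ j, (x i * t i) * t j ^ 2) := by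
    simp only [Finset.mul_sum, ← Finset.sum_add_distrib, ← Finset.sum_sub_distrib]
    refine Finset.sum_congr rfl fun i _ => Finset.sum_congr rfl fun j _ => ?_
    ring
  have hn : 0 ≤ ∑ i, ∑ j, (H i j - (α * (x i * x j) + β * (x i * t j + t i * x j)
      + γ * (t i * t j))) ^ 2 :=
    Finset.sum_nonneg fun i _ => Finset.sum_nonneg fun j _ => sq_nonneg _
  rw [key] at hn
  simp only [← Finset.sum_mul_sum, h0] at hn
  refine hn.trans_eq ?_
  ring

theorem st_Pt : St_Pt := by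
  intro n m η x v H U W hm hη hsym hE hxv hW
  set q : ℝ := ∑ i, x i ^ 2 with hq
  set N : ℝ := ∑ i, v i ^ 2 with hN
  set S : ℝ := ∑ i, ∑ j, H i j ^ 2 with hS
  have hq0 : 0 ≤ q := Finset.sum_nonneg fun i _ => sq_nonneg _
  have hN0 : 0 ≤ N := Finset.sum_nonneg fun i _ => sq_nonneg _
  have hS0 : 0 ≤ S := Finset.sum_nonneg fun i _ => Finset.sum_nonneg fun j _ => sq_nonneg _
  clear_value q N S
  have hm0 : m ≠ 0 := by linarith
  have hm1 : m - 1 ≠ 0 := by linarith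
  -- the vector `t`
  set t : Fin n → ℝ := fun i => q * v i - m * U * x i with ht
  have hxt : ∑ i, x i * t i = 0 := by
    have e : ∑ i, x i * t i = q * (∑ i, x i * v i) - m * U * ∑ i, x i ^ 2 := by
      rw [Finset.mul_sum, Finset.mul_sum, ← Finset.sum_sub_distrib]
      refine Finset.sum_congr rfl fun i _ => ?_
      simp only [ht]
      ring
    rw [e, hxv, ← hq]
    ring
  have htt : ∑ i, t i ^ 2 = q * (q * N - m ^ 2 * U ^ 2) := by
    have e : ∑ i, t i ^ 2 = q ^ 2 * (∑ i, v i ^ 2) - 2 * q * m * U * (∑ i, x i * v i)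
        + m ^ 2 * U ^ 2 * ∑ i, x i ^ 2 := by
      rw [Finset.mul_sum, Finset.mul_sum, Finset.mul_sum, ← Finset.sum_sub_distrib,
        ← Finset.sum_add_distrib]
      refine Finset.sum_congr rfl fun i _ => ?_
      simp only [ht]
      ring
    rw [e, hxv, ← hq, ← hN]
    ring
  have hA1 : ∑ i, ∑ j, H i j * (x i * x j) = m * (m - 1) * U := by
    have e : ∑ i, ∑ j, H i j * (x i * x j) = (m - 1) * ∑ i, x i * v i := by
      rw [Finset.mul_sum]
      refine Finset.sum_congr rfl fun i _ => ?_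
      have e2 : ∑ j, H i j * (x i * x j) = x i * ∑ j, H i j * x j := by
        rw [Finset.mul_sum]
        exact Finset.sum_congr rfl fun j _ => by ring
      rw [e2, hE]
      ring
    rw [e, hxv]
    ring
  have htv : ∑ i, t i * v i = q * N - m ^ 2 * U ^ 2 := by
    have e : ∑ i, t i * v i = q * (∑ i, v i ^ 2) - m * U * ∑ i, x i * v i := by
      rw [Finset.mul_sum, Finset.mul_sum, ← Finset.sum_sub_distrib]
      refine Finset.sum_congr rfl fun i _ => ?_
      simp only [ht]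
      ring
    rw [e, hxv, ← hN]
    ring
  have hA2' : ∑ i, ∑ j, H i j * (t i * x j) = (m - 1) * (q * N - m ^ 2 * U ^ 2) := by
    have e : ∑ i, ∑ j, H i j * (t i * x j) = (m - 1) * ∑ i, t i * v i := by
      rw [Finset.mul_sum]
      refine Finset.sum_congr rfl fun i _ => ?_
      have e2 : ∑ j, H i j * (t i * x j) = t i * ∑ j, H i j * x j := by
        rw [Finset.mul_sum]
        exact Finset.sum_congr rfl fun j _ => by ring
      rw [e2, hE]
      ring
    rw [e, htv]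
  have hA2 : ∑ i, ∑ j, H i j * (x i * t j) = (m - 1) * (q * N - m ^ 2 * U ^ 2) := by
    rw [← hA2', Finset.sum_comm]
    refine Finset.sum_congr rfl fun i _ => Finset.sum_congr rfl fun j _ => ?_
    rw [hsym j i]
    ring
  have hA3 : ∑ i, ∑ j, H i j * (t i * t j) =
      q ^ 2 * W * N - 2 * q * (m * (m - 1) * U) * N + m ^ 2 * U ^ 2 * (m * (m - 1) * U) := by
    have hxHv : ∑ i, ∑ j, H i j * (v i * x j) = (m - 1) * N := by
      rw [hN, Finset.mul_sum]
      refine Finset.sum_congr rfl fun i _ => ?_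
      have e2 : ∑ j, H i j * (v i * x j) = v i * ∑ j, H i j * x j := by
        rw [Finset.mul_sum]
        exact Finset.sum_congr rfl fun j _ => by ring
      rw [e2, hE]
      ring
    have hxHv' : ∑ i, ∑ j, H i j * (x i * v j) = (m - 1) * N := by
      rw [← hxHv, Finset.sum_comm]
      refine Finset.sum_congr rfl fun i _ => Finset.sum_congr rfl fun j _ => ?_
      rw [hsym j i]
      ring
    have e : ∑ i, ∑ j, H i j * (t i * t j) = q ^ 2 * (∑ i, ∑ j, v i * v j * H i j)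
        - q * (m * U) * (∑ i, ∑ j, H i j * (v i * x j))
        - q * (m * U) * (∑ i, ∑ j, H i j * (x i * v j))
        + (m * U) ^ 2 * (∑ i, ∑ j, H i j * (x i * x j)) := by
      simp only [Finset.mul_sum, ← Finset.sum_add_distrib, ← Finset.sum_sub_distrib]
      refine Finset.sum_congr rfl fun i _ => Finset.sum_congr rfl fun j _ => ?_
      simp only [ht]
      ring
    rw [e, hW, hxHv, hxHv', hA1]
    ring
  -- the expression in terms of `a`
  obtain ⟨g, hg⟩ : ∃ g, g = q * N - m ^ 2 * U ^ 2 := ⟨_, rfl⟩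
  obtain ⟨a, ha⟩ : ∃ a, a = m * (m - 1) * U := ⟨_, rfl⟩
  have hex : q ^ 2 * S + (4 + 4 * η) * (m * (m - 1)) * U * W * q
      - (5 + 4 * η) * (m * (m - 1)) ^ 2 * U ^ 2
      - (2 - η ^ 2) * (m - 1) ^ 2 * (q * N - m ^ 2 * U ^ 2) =
      q ^ 2 * S + (4 + 4 * η) * a * (q * W) - (5 + 4 * η) * a ^ 2
        - (2 - η ^ 2) * (m - 1) ^ 2 * g := by
    rw [hg, ha]
    ring
  rw [hex]
  rcases hq0.eq_or_lt with hq1 | hq1
  · -- `q = 0`
    have hx0 : ∀ i, x i = 0 := by
      intro i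
      have h1 := (Finset.sum_eq_zero_iff_of_nonneg (fun i _ => sq_nonneg (x i))).mp
        (hq.symm.trans hq1.symm) i (Finset.mem_univ i)
      exact pow_eq_zero_iff (two_ne_zero) |>.mp h1
    have hU : U = 0 := by
      have h1 : m * U = 0 := by
        rw [← hxv]
        exact Finset.sum_eq_zero fun i _ => by rw [hx0 i, zero_mul]
      exact (mul_eq_zero.mp h1).resolve_left hm0
    rw [hg, ha, hU, ← hq1]
    simp
  rcases hN0.eq_or_lt with hN1 | hN1
  · -- `N = 0`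
    have hv0 : ∀ i, v i = 0 := by
      intro i
      have h1 := (Finset.sum_eq_zero_iff_of_nonneg (fun i _ => sq_nonneg (v i))).mp
        (hN.symm.trans hN1.symm) i (Finset.mem_univ i)
      exact pow_eq_zero_iff (two_ne_zero) |>.mp h1
    have hU : U = 0 := by
      have h1 : m * U = 0 := by
        rw [← hxv]
        exact Finset.sum_eq_zero fun i _ => by rw [hv0 i, mul_zero]
      exact (mul_eq_zero.mp h1).resolve_left hm0
    rw [hg, ha, hU, ← hN1]
    have : 0 ≤ q ^ 2 * S := mul_nonneg (sq_nonneg _) hS0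
    simpa using this
  have hg0 : 0 ≤ g := by
    have h1 : 0 ≤ q * g := by
      rw [hg, ← htt]
      exact Finset.sum_nonneg fun i _ => sq_nonneg _
    exact nonneg_of_mul_nonneg_right h1 hq1
  have ha2 : a ^ 2 = (m - 1) ^ 2 * (q * N - g) := by
    rw [ha, hg]
    ring
  rw [← hg] at htt hA2 hA2'
  rw [← ha] at hA1 hA3
  have hfrob : ∀ α β γ : ℝ, 0 ≤ S - 2 * α * a - 4 * β * ((m - 1) * g)
      - 2 * γ * (∑ i, ∑ j, H i j * (t i * t j)) + α ^ 2 * q ^ 2 + 2 * β ^ 2 * (q * (q * g))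
      + γ ^ 2 * (q * g) ^ 2 := by
    intro α β γ
    have h1 := Pt_frob x t H α β γ hxt
    rw [hA1, hA2, hA2', htt] at h1
    refine h1.trans_eq ?_
    rw [← hq, ← hS]
    ring
  rcases hg0.eq_or_lt with hg1 | hg1
  · -- `g = 0`
    have ht0 : ∀ i, t i = 0 := by
      intro i
      rw [← hg1, mul_zero] at htt
      have h1 := (Finset.sum_eq_zero_iff_of_nonneg (fun i _ => sq_nonneg (t i))).mp
        htt i (Finset.mem_univ i)
      exact pow_eq_zero_iff (two_ne_zero) |>.mp h1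
    have hT0 : ∑ i, ∑ j, H i j * (t i * t j) = 0 :=
      Finset.sum_eq_zero fun i _ => Finset.sum_eq_zero fun j _ => by rw [ht0 i]; ring
    rw [hT0] at hA3
    have h1 : q * N = m ^ 2 * U ^ 2 := by linarith
    have h2 : (q * N) * (q * W - a) = 0 := by
      have e : m ^ 2 * U ^ 2 * a = q * N * a := by rw [h1]
      rw [e] at hA3
      linear_combination -hA3
    have h3 : q * W = a := by
      have h4 := (mul_eq_zero.mp h2).resolve_left (mul_pos hq1 hN1).ne'
      linarith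
    rw [h3, ← hg1]
    have h5 := hfrob (a / q ^ 2) 0 0
    have h6 : 0 ≤ q ^ 2 * (S - 2 * (a / q ^ 2) * a + (a / q ^ 2) ^ 2 * q ^ 2) := by
      refine mul_nonneg (sq_nonneg _) (h5.trans_eq ?_)
      ring
    have h7 : q ^ 2 * (S - 2 * (a / q ^ 2) * a + (a / q ^ 2) ^ 2 * q ^ 2) = q ^ 2 * S - a ^ 2 := by
      field_simp
      ring
    rw [h7] at h6
    linarith
  · -- `g > 0`
    obtain ⟨k, hk⟩ : ∃ k, k = (∑ i, ∑ j, H i j * (t i * t j)) / g := ⟨_, rfl⟩
    have hk' : ∑ i, ∑ j, H i j * (t i * t j) = k * g := by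
      rw [hk]
      field_simp
    rw [hk'] at hA3 hfrob
    have hG : 0 < q * N := mul_pos hq1 hN1
    -- the value of `q W`
    have h1 : (q * N) * (q * W) = g * k + (q * N) * a + g * a := by
      have e : m ^ 2 * U ^ 2 = q * N - g := by rw [hg]; ring
      rw [e] at hA3
      linear_combination -hA3
    -- the estimate of `S`
    have h2 : a ^ 2 + 2 * (m - 1) ^ 2 * g + k ^ 2 ≤ q ^ 2 * S := by
      have h5 := hfrob (a / q ^ 2) ((m - 1) / q ^ 2) (k / (q ^ 2 * g))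
      have h6 := mul_nonneg (sq_nonneg q) h5
      have h7 : q ^ 2 * (S - 2 * (a / q ^ 2) * a - 4 * ((m - 1) / q ^ 2) * ((m - 1) * g)
          - 2 * (k / (q ^ 2 * g)) * (k * g) + (a / q ^ 2) ^ 2 * q ^ 2
          + 2 * ((m - 1) / q ^ 2) ^ 2 * (q * (q * g)) + (k / (q ^ 2 * g)) ^ 2 * (q * g) ^ 2) =
          q ^ 2 * S - (a ^ 2 + 2 * (m - 1) ^ 2 * g + k ^ 2) := by
        field_simp
        ring
      rw [h7] at h6
      linarith
    -- the perfect square
    have h3 : 0 ≤ k ^ 2 + (4 + 4 * η) * a * (q * W - a) + η ^ 2 * (m - 1) ^ 2 * g := by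
      have h4 : 4 * (q * N) ^ 2 *
          (k ^ 2 + (4 + 4 * η) * a * (q * W - a) + η ^ 2 * (m - 1) ^ 2 * g) =
          (2 * k * (q * N) + (4 + 4 * η) * g * a) ^ 2 +
          4 * (m - 1) ^ 2 * g * ((2 + η) * (q * N) - 2 * (1 + η) * g) ^ 2 := by
        have e1 : (q * N) * (q * W - a) = g * k + g * a := by linear_combination h1
        have e2 : 4 * (q * N) ^ 2 *
            (k ^ 2 + (4 + 4 * η) * a * (q * W - a) + η ^ 2 * (m - 1) ^ 2 * g) =
            4 * (q * N) ^ 2 * k ^ 2 + 4 * (q * N) * (4 + 4 * η) * a * ((q * N) * (q * W - a)) +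
            4 * (q * N) ^ 2 * (η ^ 2 * (m - 1) ^ 2 * g) := by ring
        rw [e2, e1]
        linear_combination (4 * (4 + 4 * η) * (q * N) * g - (4 + 4 * η) ^ 2 * g ^ 2) * ha2
      have h5 : 0 ≤ 4 * (q * N) ^ 2 *
          (k ^ 2 + (4 + 4 * η) * a * (q * W - a) + η ^ 2 * (m - 1) ^ 2 * g) := by
        rw [h4]
        have h6 : 0 ≤ 4 * (m - 1) ^ 2 * g * ((2 + η) * (q * N) - 2 * (1 + η) * g) ^ 2 :=
          mul_nonneg (mul_nonneg (mul_nonneg (by norm_num) (sq_nonneg _)) hg0) (sq_nonneg _)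
        have h7 := sq_nonneg (2 * k * (q * N) + (4 + 4 * η) * g * a)
        linarith
      have h6 : 0 < 4 * (q * N) ^ 2 := by positivity
      exact nonneg_of_mul_nonneg_right h5 h6
    have h4 : q ^ 2 * S + (4 + 4 * η) * a * (q * W) - (5 + 4 * η) * a ^ 2
        - (2 - η ^ 2) * (m - 1) ^ 2 * g =
        (q ^ 2 * S - (a ^ 2 + 2 * (m - 1) ^ 2 * g + k ^ 2)) +
        (k ^ 2 + (4 + 4 * η) * a * (q * W - a) + η ^ 2 * (m - 1) ^ 2 * g) := by ring
    rw [h4]
    linarith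

end Pool.Agent.PBoch
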