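import Mathlib
import Pool.Agent.PBoch.Stmts

set_option autoImplicit false

open MvPolynomial

namespace Pool.Agent.PBoch

private lemma qm_comm {n : ℕ} (i j : Fin n) (f : Pol n) :
    pderiv i (pderiv j f) = pderiv j (pderiv i f) := by
  classical
  induction f using MvPolynomial.induction_on with
  | C a => simp
  | add p q hp hq => simp only [map_add, hp, hq]
  | mul_X p k hp =>
    have hX : ∀ l : Fin n, pderiv l (X k : Pol n) = C (if l = k then 1 else 0) := by
      intro l
      rw [pderiv_X]
      by_cases h : l = k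
      · subst h; simp
      · simp [h]
    simp only [pderiv_mul, hX, map_add, hp, pderiv_C]
    ring

private lemma qm_Ed {n : ℕ} (f : Pol n) (k : ℕ) (hf : f.IsHomogeneous k) : Ed f = C (k : ℝ) * f := by
  have := hf.sum_X_mul_pderiv
  unfold Ed
  rw [this, nsmul_eq_mul]
  simp

private lemma qm_E_C {n : ℕ} (G : Gau n) (a : ℝ) (f : Pol n) : G.E (C a * f) = a * G.E f := by
  rw [C_mul', map_smul, smul_eq_mul]

theorem st_Q : St_Q := by
  intro n G f
  have h1 : ∀ i : Fin n, G.E (X i ^ 2 * f) = G.E f + G.E (X i * pderiv i f) := by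
    intro i
    have h2 : (X i ^ 2 * f : Pol n) = X i * (X i * f) := by ring
    rw [h2, G.stein, pderiv_mul, pderiv_X_self, one_mul, map_add]
  unfold Q Ed
  rw [Finset.sum_mul, map_sum, Finset.sum_congr rfl (fun i _ => h1 i), Finset.sum_add_distrib,
    map_sum]
  simp

/-- Euler for the first derivatives with a real coefficient (also for `m = 0`). -/
private lemma qm_Ed1 {n : ℕ} (u : Pol n) (m : ℕ) (hu : u.IsHomogeneous m) (i : Fin n) :
    Ed (pderiv i u) = C ((m : ℝ) - 1) * pderiv i u := by
  rcases Nat.eq_zero_or_pos m with h | h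
  · subst h
    have h0 : u.totalDegree = 0 := Nat.le_zero.mp hu.totalDegree_le
    obtain ⟨a, ha⟩ : ∃ a, u = C a := ⟨_, totalDegree_eq_zero_iff_eq_C.mp h0⟩
    rw [ha]
    simp [Ed]
  · rw [qm_Ed _ (m - 1) hu.pderiv, Nat.cast_sub h]
    simp

theorem st_Mom : St_Mom := by
  intro n G m u hu
  have hS : ∀ f : Pol n, ∀ g : Fin n → Pol n, ∑ i, G.E (X i * (g i * f)) =
      ∑ i, G.E (pderiv i (g i) * f) + ∑ i, G.E (g i * pderiv i f) := by
    intro f g
    rw [← Finset.sum_add_distrib]
    apply Finset.sum_congr rfl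
    intro i _
    rw [G.stein, pderiv_mul, map_add]
  -- (1)
  have hEd : ∀ f : Pol n, ∑ i, G.E (X i * (pderiv i u * f)) = m * G.E (u * f) := by
    intro f
    rw [← map_sum]
    have : ∑ i, X i * (pderiv i u * f) = Ed u * f := by
      unfold Ed
      rw [Finset.sum_mul]
      exact Finset.sum_congr rfl (fun i _ => by ring)
    rw [this, qm_Ed u m hu, mul_assoc, qm_E_C]
  have hLap : ∀ f : Pol n, ∑ i, G.E (pderiv i (pderiv i u) * f) = G.E (Lap u * f) := by
    intro f
    rw [← map_sum]
    unfold Lap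
    rw [Finset.sum_mul]
  have h1 : (m : ℝ) * G.E (u * u) = G.E (Lap u * u) + G.E (Gr u u) := by
    rw [← hEd u, hS, hLap]
    congr 1
    rw [← map_sum]
    rfl
  have h2 : (m : ℝ) * G.E (u * Lap u) = G.E (Lap u * Lap u)
      + ∑ i, G.E (pderiv i u * pderiv i (Lap u)) := by
    rw [← hEd (Lap u), hS, hLap]
  have hdL : ∀ i, pderiv i (Lap u) = Lap (pderiv i u) := by
    intro i
    unfold Lap
    rw [map_sum]
    apply Finset.sum_congr rfl
    intro j _
    rw [qm_comm i j (pderiv j u), qm_comm i j u]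
  -- third family: f = d_j d_i u, g_i = d_i u, summed over j
  have h3 : ((m : ℝ) - 1) * G.E (Gr u u) = G.E (Hs u) + ∑ i, G.E (pderiv i u * pderiv i (Lap u)) := by
    have hj : ∀ i : Fin n, ∑ j, G.E (X j * (pderiv j (pderiv i u) * pderiv i u))
        = ((m : ℝ) - 1) * G.E (pderiv i u * pderiv i u) := by
      intro i
      rw [← map_sum]
      have : ∑ j, X j * (pderiv j (pderiv i u) * pderiv i u) = Ed (pderiv i u) * pderiv i u := by
        unfold Ed
        rw [Finset.sum_mul]
        exact Finset.sum_congr rfl (fun i _ => by ring)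
      rw [this, qm_Ed1 u m hu i, mul_assoc, qm_E_C]
    have hsum : ∑ i, ∑ j, G.E (X j * (pderiv j (pderiv i u) * pderiv i u))
        = ((m : ℝ) - 1) * G.E (Gr u u) := by
      rw [Finset.sum_congr rfl (fun i _ => hj i), ← Finset.mul_sum, ← map_sum]
      rfl
    have hst : ∀ i j : Fin n, G.E (X j * (pderiv j (pderiv i u) * pderiv i u))
        = G.E (pderiv i u * pderiv j (pderiv j (pderiv i u)))
          + G.E (pderiv i (pderiv j u) ^ 2) := by
      intro i j
      rw [G.stein, pderiv_mul, map_add]
      congr 1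
      · rw [mul_comm]
      · rw [qm_comm i j u]; ring_nf
    rw [← hsum, Finset.sum_congr rfl (fun i _ => Finset.sum_congr rfl (fun j _ => hst i j))]
    simp only [Finset.sum_add_distrib]
    rw [add_comm]
    congr 1
    · unfold Hs
      simp only [map_sum]
    · apply Finset.sum_congr rfl
      intro i _
      rw [hdL i]
      unfold Lap
      rw [Finset.mul_sum, map_sum]
  have c1 : (Lap u * u) = u * Lap u := mul_comm _ _
  have c2 : (Lap u * Lap u) = Lap u ^ 2 := by ring
  have c3 : u * u = u ^ 2 := by ring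
  rw [c1, c3] at h1
  rw [c2] at h2
  refine ⟨?_, ?_, ?_⟩
  · linarith
  · have : G.E (u * Lap u) = m * G.E (u ^ 2) - G.E (Gr u u) := by linarith
    rw [this] at h2
    linear_combination h3 - h2
  · rw [h2]
    congr 1
    exact Finset.sum_congr rfl (fun i _ => by rw [hdL i])

end Pool.Agent.PBoch
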