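import Mathlib
import Pool.Agent.PBoch.Stmts

set_option autoImplicit false

open MvPolynomial

namespace Pool.Agent.PBoch

/-
PLAN. v = Lap u, homogeneous of degree m-2 (m >= 2). Rot i j u = X i * d_j u - X j * d_i u is homogeneous
of degree m, so hH gives 0 <= E (Rot i j u * Lap (Rot i j u)) for all i, j.
(1) Lap (Rot i j u) = Rot i j (Lap u): Lap (X i * f) = X i * Lap f + 2 d_i f, so
Lap (X i d_j u - X j d_i u) = X i Lap d_j u - X j Lap d_i u + 2 d_i d_j u - 2 d_j d_i u.
(2) Polynomial identity: sum_{i,j} Rot i j u * Rot i j v = 2 * (Q * Gr u v - Ed u * Ed v)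
(expand: sum (x_i u_j - x_j u_i)(x_i v_j - x_j v_i)).
(3) Ed u = m u, Ed v = (m-2) v (Euler). So 0 <= E (Q * Gr u v) - m (m-2) E (u v).
(4) hQ with f = Gr u v, homogeneous of degree (m-1)+(m-3): for m >= 3, Ed (Gr u v) = (2m-4) Gr u v, so
E (Q * Gr u v) = (n + 2m - 4) E (Gr u v); for m = 2, v is a constant (degree 0), Gr u v = 0, fine too
(it may be easier to prove Ed (Gr u v) = (2m-4) * Gr u v from Ed u = m u, Ed v = (m-2) v by the product rule:
Ed (d_i u) = d_i (Ed u) - d_i u = (m-1) d_i u and Ed (d_i v) = (m-3) d_i v as REAL scalars, no case split).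
(5) E (Gr u v) = m E (u v) - E (v^2): Stein with f = d_i u * v summed: E (Ed u * v) = E (Lap u * v) + E (Gr u v).
(6) Together: 0 <= (n+2m-4) (m E(uv) - E(v^2)) - m(m-2) E(uv), i.e. c E(v^2) <= m (c - m + 2) E(uv) = m(m+n-2) E(uv).
All scalars as real numbers: use C or smul; G.E is linear over R (map_smul), and C a * f = a . f (C_mul').
-/

private lemma r_X {n : ℕ} (l k : Fin n) : pderiv l (X k : Pol n) = C (if l = k then 1 else 0) := by
  rw [pderiv_X]
  by_cases h : l = k
  · subst h; simp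
  · simp [h]

private lemma r_comm {n : ℕ} (i j : Fin n) (f : Pol n) :
    pderiv i (pderiv j f) = pderiv j (pderiv i f) := by
  induction f using MvPolynomial.induction_on with
  | C a => simp
  | add p q hp hq => simp only [map_add, hp, hq]
  | mul_X p k hp =>
    simp only [pderiv_mul, r_X, map_add, hp, pderiv_C]
    ring

private lemma r_Ed {n : ℕ} (f : Pol n) (k : ℕ) (hf : f.IsHomogeneous k) : Ed f = C (k : ℝ) * f := by
  have := hf.sum_X_mul_pderiv
  unfold Ed
  rw [this, nsmul_eq_mul]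
  simp

private lemma r_E_C {n : ℕ} (G : Gau n) (a : ℝ) (f : Pol n) : G.E (C a * f) = a * G.E f := by
  rw [C_mul', map_smul, smul_eq_mul]

private lemma r_hLap {n m : ℕ} (u : Pol n) (hu : u.IsHomogeneous m) :
    (Lap u).IsHomogeneous (m - 1 - 1) := by
  unfold Lap
  apply IsHomogeneous.sum
  intro i _
  exact IsHomogeneous.pderiv (IsHomogeneous.pderiv hu)

private lemma r_Lap_X {n : ℕ} (i : Fin n) (f : Pol n) :
    Lap (X i * f) = X i * Lap f + 2 * pderiv i f := by
  unfold Lap
  have h : ∀ k, pderiv k (pderiv k (X i * f)) =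
      X i * pderiv k (pderiv k f) + (if k = i then 2 * pderiv k f else 0) := by
    intro k
    rw [pderiv_mul, r_X, map_add, pderiv_mul, pderiv_mul, r_X, pderiv_C]
    by_cases hk : k = i
    · rw [if_pos hk, if_pos hk, C_1]
      ring
    · rw [if_neg hk, if_neg hk, C_0]
      ring
  rw [Finset.sum_congr rfl (fun k _ => h k), Finset.sum_add_distrib, ← Finset.mul_sum]
  simp

private lemma r_Lap_pd {n : ℕ} (j : Fin n) (f : Pol n) : Lap (pderiv j f) = pderiv j (Lap f) := by
  unfold Lap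
  rw [map_sum]
  apply Finset.sum_congr rfl
  intro k _
  rw [r_comm k j f, r_comm k j]

private lemma r_Lap_sub {n : ℕ} (f h : Pol n) : Lap (f - h) = Lap f - Lap h := by
  unfold Lap
  simp only [map_sub]
  rw [Finset.sum_sub_distrib]

private lemma r_Lap_Rot {n : ℕ} (i j : Fin n) (f : Pol n) :
    Lap (Rot i j f) = Rot i j (Lap f) := by
  unfold Rot
  rw [r_Lap_sub, r_Lap_X, r_Lap_X, r_Lap_pd, r_Lap_pd, r_comm i j f]
  ring

private lemma r_hRot {n m : ℕ} (hm : 2 ≤ m) (i j : Fin n) (u : Pol n) (hu : u.IsHomogeneous m) :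
    (Rot i j u).IsHomogeneous m := by
  have e : 1 + (m - 1) = m := by omega
  have h1 : ∀ i j : Fin n, (X i * pderiv j u : Pol n).IsHomogeneous m := by
    intro i j
    have := (isHomogeneous_X ℝ i).mul (hu.pderiv (i := j))
    rwa [e] at this
  exact (h1 i j).sub (h1 j i)

private lemma r_sum {n : ℕ} (u v : Pol n) :
    ∑ i, ∑ j, Rot i j u * Rot i j v = 2 * (Q n * Gr u v - Ed u * Ed v) := by
  have h : ∀ i j : Fin n, Rot i j u * Rot i j v =
      X i ^ 2 * (pderiv j u * pderiv j v) + X j ^ 2 * (pderiv i u * pderiv i v)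
      - (X i * pderiv i v) * (X j * pderiv j u) - (X i * pderiv i u) * (X j * pderiv j v) := by
    intro i j
    unfold Rot
    ring
  rw [Finset.sum_congr rfl (fun i _ => Finset.sum_congr rfl (fun j _ => h i j))]
  simp only [Finset.sum_sub_distrib, Finset.sum_add_distrib, ← Finset.mul_sum, ← Finset.sum_mul]
  unfold Q Gr Ed
  ring

private lemma r_Ed_mul {n : ℕ} (f h : Pol n) : Ed (f * h) = Ed f * h + f * Ed h := by
  unfold Ed
  rw [Finset.sum_mul, Finset.mul_sum, ← Finset.sum_add_distrib]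
  apply Finset.sum_congr rfl
  intro k _
  rw [pderiv_mul]
  ring

private lemma r_Ed_sum {n : ℕ} (f : Fin n → Pol n) : Ed (∑ i, f i) = ∑ i, Ed (f i) := by
  unfold Ed
  simp only [map_sum, Finset.mul_sum]
  rw [Finset.sum_comm]

private lemma r_Ed_pd {n : ℕ} (i : Fin n) (f : Pol n) (a : ℝ) (h : Ed f = C a * f) :
    Ed (pderiv i f) = C (a - 1) * pderiv i f := by
  have h1 : pderiv i (Ed f) = pderiv i f + Ed (pderiv i f) := by
    unfold Ed
    rw [map_sum]
    have h2 : ∀ k, pderiv i (X k * pderiv k f) =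
        (if i = k then pderiv k f else 0) + X k * pderiv k (pderiv i f) := by
      intro k
      rw [pderiv_mul, r_X, r_comm i k]
      by_cases hk : i = k
      · rw [if_pos hk, if_pos hk, C_1]
        ring
      · rw [if_neg hk, if_neg hk, C_0]
        ring
    rw [Finset.sum_congr rfl (fun k _ => h2 k), Finset.sum_add_distrib]
    simp
  rw [h, pderiv_C_mul] at h1
  rw [C_sub, C_1]
  linear_combination -h1

theorem st_R (hQ : St_Q) (hH : St_H) : St_R := by
  intro n G m u hu hm
  have hm1 : ((m - 1 - 1 : ℕ) : ℝ) = (m : ℝ) - 2 := by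
    have e : m - 1 - 1 = m - 2 := by omega
    rw [e]
    push_cast [Nat.cast_sub hm]
    ring
  have hEu : Ed u = C (m : ℝ) * u := r_Ed u m hu
  have hEv : Ed (Lap u) = C ((m : ℝ) - 2) * Lap u := by
    rw [r_Ed _ _ (r_hLap u hu), hm1]
  -- rotations
  have h1 : 0 ≤ G.E (∑ i, ∑ j, Rot i j u * Rot i j (Lap u)) := by
    rw [map_sum]
    apply Finset.sum_nonneg
    intro i _
    rw [map_sum]
    apply Finset.sum_nonneg
    intro j _
    rw [← r_Lap_Rot]
    exact hH n G m _ (r_hRot hm i j u hu)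
  have e2 : (2 : Pol n) = C (2 : ℝ) := (map_ofNat C 2).symm
  rw [r_sum, e2, r_E_C, map_sub, hEu, hEv] at h1
  have e3 : C (m : ℝ) * u * (C ((m : ℝ) - 2) * Lap u) =
      C ((m : ℝ) * ((m : ℝ) - 2)) * (u * Lap u) := by
    rw [C_mul]
    ring
  rw [e3, r_E_C] at h1
  -- Euler for the scalar product of the gradients
  have h4 : Ed (Gr u (Lap u)) = C (2 * (m : ℝ) - 4) * Gr u (Lap u) := by
    unfold Gr
    rw [r_Ed_sum, Finset.mul_sum]
    apply Finset.sum_congr rfl
    intro i _
    rw [r_Ed_mul, r_Ed_pd i u _ hEu, r_Ed_pd i (Lap u) _ hEv]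
    have e5 : (C (2 * (m : ℝ) - 4) : Pol n) = C ((m : ℝ) - 1) + C ((m : ℝ) - 2 - 1) := by
      rw [← C_add]
      congr 1
      ring
    rw [e5]
    ring
  have h5 : G.E (Q n * Gr u (Lap u)) = ((n : ℝ) + 2 * m - 4) * G.E (Gr u (Lap u)) := by
    rw [hQ, h4, r_E_C]
    ring
  -- Stein
  have h6 : G.E (Ed u * Lap u) = G.E (Lap u ^ 2) + G.E (Gr u (Lap u)) := by
    have h7 : ∀ i, G.E (X i * (pderiv i u * Lap u)) =
        G.E (pderiv i (pderiv i u) * Lap u) + G.E (pderiv i u * pderiv i (Lap u)) := by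
      intro i
      rw [G.stein, pderiv_mul, map_add]
    have h8 : G.E (Ed u * Lap u) = ∑ i, G.E (X i * (pderiv i u * Lap u)) := by
      unfold Ed
      rw [Finset.sum_mul, map_sum]
      apply Finset.sum_congr rfl
      intro i _
      rw [mul_assoc]
    rw [h8, Finset.sum_congr rfl (fun i _ => h7 i), Finset.sum_add_distrib, ← map_sum, ← map_sum]
    congr 1
    rw [← Finset.sum_mul]
    congr 1
    show Lap u * Lap u = Lap u ^ 2
    ring
  rw [hEu, mul_assoc, r_E_C] at h6
  have h9 : G.E (Gr u (Lap u)) = m * G.E (u * Lap u) - G.E (Lap u ^ 2) := by linarith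
  rw [h5, h9] at h1
  nlinarith [h1]

end Pool.Agent.PBoch
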